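import Pool.Agent.U569.WN.GenW
import Pool.Agent.U569.APL.NatW
import Pool.Agent.Results.MP_4589ac_nt.ThinSequences

/-!
# The Tauberian Tate conjecture for almost all surfaces in the projective space over a number field whose coefficients are
formed from arbitrary sets

Let `K` be a number field and `ω_0, ..., ω_(g-1)` elements of its ring of integers such that `1` is a linear combination of
them with integral coefficients, for instance an integral basis. The surface `V` of degree `d` in the projective space of
dimension `3` over `K` is the projective closure of `∑ x_i ^ d + ∑ c_α x ^ α = 0`, where `x = (x_0, x_1, x_2)` and `α` runs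
through the exponents of all monomials of degree less than `d`; the coefficients are `c_α = ∑ m_(α,j) ω_j`, `m_(α,j) ≥ 0`
integers. The rank of `NS(V)` is `1` for a general surface of degree `d ≥ 4` (the theorem of Noether and Lefschetz). For a
prime ideal `v` of good reduction let `b_v` be the trace of the Frobenius automorphism on `H ^ 2(V)`, and `q_v` the absolute
norm of `v`; `tateSum` and `mainSum` (starting file `ThinSequences`, where `b_v` is truncated at `|b_v - q_v| ≤ q_v ^ (1 + η)`,
which is no restriction if `q_v` is larger than a number which depends only on `d` and `η > 0`) are the weighted sums of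
`b_v log(q_v) / q_v` over the prime ideals of good reduction with `q_v ≤ T`, and of `log q_v` over the prime ideals with
`q_v ≤ T`.

**Theorem.** Let a degree `d`, an even number `h` with `2 ≤ h ≤ d`, `δ > 0`, `A`, `B`, `B₀` and `β > 0` be given, and put
`η = 1 / (2 (h - 1))`. There are `κ₀ > 0` and `y₀` such that for every sequence (`j = 0, 1, 2, …`) of finite families of
vectors of nonnegative integers `m` of the following kind, for large `j`, ALL `y ≥ y₀` and all sets `W T` of at most `T ^ B`
weights of the prime ideals with values in `[-1, 1]`: for all but the fraction `1 / y ^ A` of the members of the `j`-th family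
the weighted Tate sum is the main sum up to `T ^ (1 / 2 + η + δ)` for ALL `T` with `y ≤ T ≤ (1 + |m|) ^ κ₀`, `|m| = ∑ m_l`, and all
weights `w ∈ W T`. The members are `c₀ + y`, where `|c₀| ≤ q ^ B₀` and `y` is one of the following vectors of `r` coordinates,
`r = g D`, `D` the number of the monomials (represented by `0, …, q - 1`), `q → ∞`:

* `y` in any family of vectors modulo `q` whose nontrivial Fourier coefficients are at most
  `1 / (Z (42 + 3 log q) ^ r)`, `q ^ β ≤ Z ≤ q` (`PowerFlat`);
* (the last four with `q = P` prime, `0 < ε ≤ 1` and `β = ε / 8`) `b(x, z) + u(x) + w(z)`, where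
  `b : k ^ m × k ^ n → k ^ r` is bilinear, the nontrivial combinations of its coordinates have rank at least `ρ`, `x`
  and `z` are in ARBITRARY sets `E` and `F` with `|E| |F| ≥ P ^ (m + n - ρ + ε)`, `u` and `w` are arbitrary functions;
* the same for `b(x, z) = x z`, `x` and `z` in ARBITRARY subsets of the field of `P ^ r` elements,
  `|E| |F| ≥ P ^ (r + ε)`;
* polynomials in `k` variables of degree at most `P ^ (ε / 4)`, all nontrivial combinations of which have a monomial with
  at least two variables, plus arbitrary functions of the single variables, on products of `k` ARBITRARY sets of at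
  least `P ^ (1 / 2 + ε)` residues; for example the products of the elements of `r` different sets of two or more of `k`
  residues `a_1, …, a_k ∈ S`;
* polynomials in one variable of degree at most `P ^ (ε / 4)`, no nontrivial combination of which is constant, on any
  subgroup of the multiplicative group modulo `P` with at least `P ^ (1 / 2 + ε)` elements.

New: the families. Method: high moments of sums of local functions over well distributed families (`Pool.Agent.N647.TS`,
here for all such families, `U569/WN`), the local means of `Pool.Agent.N842.HS`, distribution of families with small Fourier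
coefficients (`Pool.Agent.N384.VF`), and the estimates of the Fourier coefficients on arbitrary sets in `U569/APL`.
-/

set_option autoImplicit false

namespace Pool.Agent.Results.MP_4589ac_nt.ArbitrarySets

open Finset Filter NumberField IsDedekindDomain
open Pool.Agent.Results.MP_4589ac_nt.ThinSequences (Exponent tateSum mainSum sum_eq)
open Pool.Agent.U569.APL

/-- For all `T` with `y ≤ T ≤ X` and all weights `w ∈ W T` the weighted sum of the `b_v log(q_v) / q_v` over the prime ideals of
good reduction with `q_v ≤ T` is the weighted sum of the `log q_v` over the prime ideals with `q_v ≤ T` up to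
`T ^ (1 / 2 + η + δ)`. -/
def TateUpTo {K : Type} [Field K] [NumberField K] {g d D : ℕ} (ω : Fin g → 𝓞 K) (e : Fin D ≃ Exponent d) (η δ : ℝ)
    (W : ℕ → Set (HeightOneSpectrum (𝓞 K) → ℝ)) (y : ℕ) (X : ℝ) (m : Fin (D * g) → ℕ) : Prop :=
  ∀ T : ℕ, y ≤ T → (T : ℝ) ≤ X → ∀ w ∈ W T, |tateSum ω e η w T m - mainSum w T| ≤ (T : ℝ) ^ (1 / 2 + η + δ)

/-- **The Tauberian Tate conjecture for almost all surfaces with coefficients formed from arbitrary sets.** -/
theorem result (K : Type) [Field K] [NumberField K] (g d D h : ℕ) (ω : Fin g → 𝓞 K)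
    (hω : (1 : 𝓞 K) ∈ Submodule.span ℤ (Set.range ω)) (e : Fin D ≃ Exponent d) (h2 : 2 ≤ h) (he : Even h) (hd : h ≤ d)
    (δ : ℝ) (hδ : 0 < δ) (A B B₀ : ℕ) (η : ℝ) (hη : η = 1 / (2 * ((h : ℝ) - 1))) :
    (∀ β : ℝ, 0 < β → ∃ κ₀ : ℝ, 0 < κ₀ ∧ ∃ y₀ : ℕ, ∀ (τ : ℕ → Type) (s : ∀ j, Finset (τ j))
      (v : ∀ j, τ j → Fin (D * g) → ℤ), PowerFlat β B₀ s v → (∀ j, ∀ i ∈ s j, ∀ l, 0 ≤ v j i l) →
      ∀ᶠ j in atTop, ∀ y : ℕ, y₀ ≤ y → ∀ W : ℕ → Set (HeightOneSpectrum (𝓞 K) → ℝ),
        (∀ T, (W T).Finite ∧ (W T).ncard ≤ T ^ B) → (∀ T, ∀ w ∈ W T, ∀ v, |w v| ≤ 1) →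
          ({i : τ j | i ∈ s j ∧ ¬ TateUpTo ω e η δ W y ((1 + ∑ l, (v j i l : ℝ)) ^ κ₀) (fun l => (v j i l).toNat)}.ncard : ℝ) ≤
            1 / (y : ℝ) ^ A * (s j).card) ∧
    ExamplesP (Fin (D * g)) B₀ := by
  classical
  refine ⟨fun β hβ => ?_, examplesP _ _⟩
  obtain ⟨M₀, y₀, hlaw⟩ := Pool.Agent.U569.WN.surfTW (N := 3) e (by norm_num) (by omega) g h ω hω h2 he hd δ hδ A B
  obtain ⟨κ₀, hκ₀, hconv⟩ := power_conv (D * g) hβ B₀ M₀
  refine ⟨κ₀, hκ₀, y₀, fun τ s v hs hpos => ?_⟩
  filter_upwards [hconv hs hpos] with j hj y hy W hW hW1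
  have key := hj y A (fun T m => ∀ w ∈ W T,
      |∑ v ∈ Pool.Agent.N842.HS.VT K T, w v *
        ((Pool.Agent.N842.HS.F0 (N := 3) e v (Pool.Agent.N842.HS.cf ω m) +
          Pool.Agent.N842.HS.F1 (N := 3) e (1 / (2 * ((h : ℝ) - 1))) v (Pool.Agent.N842.HS.cf ω m) - 1) *
            Real.log (Ideal.absNorm v.asIdeal))| ≤ (T : ℝ) ^ (1 / 2 + 1 / (2 * ((h : ℝ) - 1)) + δ)) ?_
    (fun m => TateUpTo ω e η δ W y ((1 + ∑ l, (m l : ℝ)) ^ κ₀) m) ?_
  · refine le_trans (le_of_eq ?_) key
    congr 2
    ext i
    refine and_congr_right fun hi => not_congr ?_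
    have e1 : ∀ l, (((v j i l).toNat : ℕ) : ℝ) = (v j i l : ℝ) := by
      intro l
      have h3 : (((v j i l).toNat : ℕ) : ℤ) = v j i l := Int.toNat_of_nonneg (hpos j i hi l)
      exact_mod_cast congrArg (fun z : ℤ => (z : ℝ)) h3
    simp only [e1]
  · intro S u H hwell E hE
    have e1 : {t : ℕ | t ∈ S ∧ ¬ E (u t)} = ((S.filter fun t => ¬ E (u t) : Finset ℕ) : Set ℕ) := by
      ext t
      simp
    rw [e1, Set.ncard_coe_finset]
    exact hlaw y S u H hy hwell W hW hW1 E hE
  · intro m hm T hyT hTr w hw
    have h3 := hm T hyT hTr w hw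
    rw [sum_eq, hη]
    exact h3

end Pool.Agent.Results.MP_4589ac_nt.ArbitrarySets
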