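import Pool.Agent.U62.LD.Cur2

/-!
# The Tauberian Tate conjecture for the products of random curves: moderate deviations

Let `C_1, ..., C_N` be curves of the genera `g_1, ..., g_N ≥ 2`, `C_i : Y ^ 2 = X ^ (2 g_i + 1) + ... `, with random integer
coefficients.  By Künneth's formula the trace of the Frobenius on `H^2` of the surface `C_i x C_j` is `b_p(C_i x C_j) = 2 p + a_p(C_i) a_p(C_j)`,
and for generic curves the rank of the Néron-Severi group of `C_i x C_j` is `2` for `i ≠ j` and `3` for `i = j`.  We find the exact exponents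
of the joint moderate deviations of the averages of the question for the surfaces `C_i x C_j`, `i ≤ j`, from these ranks.
-/

set_option autoImplicit false

namespace Pool.Agent.Results.MP_4589ac_nt.ModerateDeviations

open Finset Polynomial

variable {N : ℕ}

/-- The coefficients of the equations of `N` curves of the genera `g_1, ..., g_N`. -/
abbrev Coeff (g : Fin N → ℕ) : Type := Σ i : Fin N, Fin (2 * g i + 1)

/-- The number of the solutions of `Y ^ 2 = X ^ (2 g + 1) + c_(2 g) X ^ (2 g) + ... + c_0` in the field with `p` elements. -/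
noncomputable def points (g p : ℕ) (c : Fin (2 * g + 1) → ℤ) : ℕ :=
  Nat.card {P : ZMod p × ZMod p // P.2 ^ 2 = P.1 ^ (2 * g + 1) + ∑ i, (c i : ZMod p) * P.1 ^ (i : ℕ)}

/-- `p` is odd and `X ^ (2 g + 1) + ... + c_0` is separable modulo `p`, so that the curve with this equation has good reduction
at `p`. -/
def IsGood (g p : ℕ) (c : Fin (2 * g + 1) → ℤ) : Prop :=
  p ≠ 2 ∧ (Polynomial.X ^ (2 * g + 1) + ∑ i, Polynomial.C (c i : ZMod p) * Polynomial.X ^ (i : ℕ)).Separable

/-- The trace `p + 1 - #C(F_p)` of the Frobenius on `H^1` of the curve (there is one point at infinity, so that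
`#C(F_p) = points g p c + 1`). -/
noncomputable def trace (g p : ℕ) (c : Fin (2 * g + 1) → ℤ) : ℝ := (p : ℝ) + 1 - ((points g p c : ℝ) + 1)

/-- The curve number `i`. -/
def curve {g : Fin N → ℕ} (c : Coeff g → ℤ) (i : Fin N) : Fin (2 * g i + 1) → ℤ := fun k => c ⟨i, k⟩

/-- The trace of the Frobenius on `H^2` of the surface `C_i x C_j`. -/
noncomputable def b {g : Fin N → ℕ} (c : Coeff g → ℤ) (i j : Fin N) (p : ℕ) : ℝ :=
  2 * p + trace (g i) p (curve c i) * trace (g j) p (curve c j)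

/-- The rank of the Néron-Severi group of `C_i x C_j` for curves with independent Jacobians without extra endomorphisms. -/
def rk (i j : Fin N) : ℝ := 2 + if i = j then 1 else 0

/-- The variance of `b_p(C_i x C_j) / p`. -/
def var (i j : Fin N) : ℝ := 1 + if i = j then 1 else 0

open Classical in
/-- The weighted sum of `b_p(C_i x C_j) / p - rk i j` over the primes `p ∈ P` of good reduction of `C_i` and `C_j`. -/
noncomputable def deviation {g : Fin N → ℕ} (P : Finset ℕ) (w : ℕ → ℝ) (i j : Fin N) (c : Coeff g → ℤ) : ℝ :=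
  ∑ p ∈ P.filter (fun p => IsGood (g i) p (curve c i) ∧ IsGood (g j) p (curve c j)), w p * (b c i j p / p - rk i j)

/-- The primes up to `T`. -/
def primesUpTo (T : ℕ) : Finset ℕ := (Finset.range (T + 1)).filter Nat.Prime

/-- The average `T⁻¹ ∑ log p (b_p(C_i x C_j) / p - rk i j)` over the primes `p ≤ T` of good reduction. -/
noncomputable def tateDeviation {g : Fin N → ℕ} (T : ℕ) (i j : Fin N) (c : Coeff g → ℤ) : ℝ :=
  deviation (primesUpTo T) (fun p => Real.log p) i j c / T

/-- The proportion of the integer vectors `c` with coordinates of absolute value at most `H` which have the property `Q`. -/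
noncomputable def proportion {ι : Type} [Fintype ι] (H : ℕ) (Q : (ι → ℤ) → Prop) : ℝ :=
  ({c : ι → ℤ | (∀ i, |c i| ≤ H) ∧ Q c}.ncard : ℝ) / (2 * H + 1 : ℝ) ^ Fintype.card ι

/-- The number `x` lies between `exp (- (R + ε) l)` and `exp (- (R - ε) l)`. -/
def Between (l : ℕ) (R ε x : ℝ) : Prop := Real.exp (-(R + ε) * l) ≤ x ∧ x ≤ Real.exp (-(R - ε) * l)

/-- The exponent: the sum of `β_ij ^ 2 / 2` over `i ≤ j`. -/
noncomputable def rate (β : Fin N → Fin N → ℝ) : ℝ := ∑ i, ∑ j, if i ≤ j then β i j ^ 2 / 2 else 0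

lemma card_affine {F : Type} [Field F] [Fintype F] [DecidableEq F] (hF : ringChar F ≠ 2) (f : F → F) :
    (Nat.card {P : F × F // P.2 ^ 2 = f P.1} : ℝ) = (Fintype.card F : ℝ) + ∑ x : F, (quadraticChar F (f x) : ℝ) := by
  classical
  have h1 : Nat.card {P : F × F // P.2 ^ 2 = f P.1} = ∑ x : F, Nat.card {y : F // y ^ 2 = f x} := by
    rw [← Nat.card_sigma]
    refine Nat.card_congr ⟨fun P => ⟨P.1.1, ⟨P.1.2, P.2⟩⟩, fun P => ⟨(P.1, P.2.1), P.2.2⟩, fun _ => rfl, fun _ => rfl⟩
  have h2 : ∀ x : F, ((Nat.card {y : F // y ^ 2 = f x} : ℕ) : ℤ) = quadraticChar F (f x) + 1 := by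
    intro x
    rw [← quadraticChar_card_sqrts hF (f x)]
    congr 1
    rw [Nat.card_eq_fintype_card, Fintype.card_subtype]
    congr 1
    ext y
    simp
  rw [h1]
  push_cast
  have h3 : ∀ x : F, ((Nat.card {y : F // y ^ 2 = f x} : ℕ) : ℝ) = (quadraticChar F (f x) : ℝ) + 1 := by
    intro x
    have := h2 x
    exact_mod_cast this
  rw [sum_congr rfl (fun x _ => h3 x), sum_add_distrib, sum_const, card_univ, nsmul_eq_mul, mul_one]
  ring

lemma vl_cast (p : ℕ) [Fact p.Prime] {g : Fin N → ℕ} (c : Coeff g → ℤ) (i : Fin N) :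
    (fun k => ((Pool.Agent.U62.LD.vl (fun k => Pool.Agent.Y722.HS.red p c ⟨i, k⟩) k : ℕ) : ZMod p)) =
      fun k => (curve c i k : ZMod p) := by
  funext k
  unfold Pool.Agent.U62.LD.vl Pool.Agent.Y722.HS.red curve
  exact ZMod.natCast_zmod_val _

lemma local_eq (p : ℕ) (hp : p.Prime) {g : Fin N → ℕ} (c : Coeff g → ℤ) (i : Fin N) :
    (IsGood (g i) p (curve c i) →
      Pool.Agent.U62.RB.gd (g i) p (Pool.Agent.U62.LD.vl fun k => Pool.Agent.Y722.HS.red p c ⟨i, k⟩) = 1 ∧
      Pool.Agent.Y57.FD.HM.tr (g i) p (Pool.Agent.U62.LD.vl fun k => Pool.Agent.Y722.HS.red p c ⟨i, k⟩) =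
        -(trace (g i) p (curve c i) / √p)) ∧
    (¬ IsGood (g i) p (curve c i) →
      Pool.Agent.U62.RB.gd (g i) p (Pool.Agent.U62.LD.vl fun k => Pool.Agent.Y722.HS.red p c ⟨i, k⟩) = 0 ∧
      Pool.Agent.Y57.FD.HM.tr (g i) p (Pool.Agent.U62.LD.vl fun k => Pool.Agent.Y722.HS.red p c ⟨i, k⟩) = 0) := by
  classical
  haveI : Fact p.Prime := ⟨hp⟩
  have e := vl_cast p c i
  have epol : (Pool.Agent.Y57.FD.HM.pol p (D := 2 * g i + 1) (fun k => (curve c i k : ZMod p))) =
    Polynomial.X ^ (2 * g i + 1) + ∑ k, Polynomial.C (curve c i k : ZMod p) * Polynomial.X ^ (k : ℕ) := rfl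
  unfold Pool.Agent.U62.RB.gd Pool.Agent.Y57.FD.HM.tr
  constructor
  · intro h
    rw [dif_pos ⟨hp, h.1⟩, dif_pos ⟨hp, h.1⟩, e, epol, if_pos h.2, if_pos h.2]
    refine ⟨rfl, ?_⟩
    have h3 : (points (g i) p (curve c i) : ℝ) = (p : ℝ) + ∑ x : ZMod p, (quadraticChar (ZMod p)
        (Pool.Agent.Y57.FD.Mom.val (ZMod p) (2 * g i + 1) (fun k => (curve c i k : ZMod p)) x) : ℝ) := by
      unfold points
      rw [card_affine (Pool.Agent.V11210.G2.ringChar_zmod p h.1)
        (fun x => x ^ (2 * g i + 1) + ∑ k, (curve c i k : ZMod p) * x ^ (k : ℕ)), ZMod.card]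
      rfl
    unfold trace
    rw [h3, ZMod.card]
    ring
  · intro h
    by_cases h2 : p = 2
    · rw [dif_neg (fun h' => h'.2 h2), dif_neg (fun h' => h'.2 h2)]
      exact ⟨rfl, rfl⟩
    · rw [dif_pos ⟨hp, h2⟩, dif_pos ⟨hp, h2⟩, e, epol, if_neg (fun h' => h ⟨h2, h'⟩), if_neg (fun h' => h ⟨h2, h'⟩)]
      exact ⟨rfl, rfl⟩

lemma deviation_eq (P : Finset ℕ) (hP : ∀ p ∈ P, p.Prime) (w : ℕ → ℝ) (i j : Fin N) {g : Fin N → ℕ} (c : Coeff g → ℤ) :
    deviation P w i j c = √(var i j) * ∑ p ∈ P, w p * Pool.Agent.U62.LD.pairF g i j p (Pool.Agent.Y722.HS.red p c) := by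
  classical
  unfold deviation
  rw [Finset.sum_filter, Finset.mul_sum]
  refine Finset.sum_congr rfl fun p hp => ?_
  have hp0 : (0 : ℝ) < p := by exact_mod_cast (hP p hp).pos
  obtain ⟨i1, i2⟩ := local_eq p (hP p hp) c i
  obtain ⟨j1, j2⟩ := local_eq p (hP p hp) c j
  have hs : √(p : ℝ) * √(p : ℝ) = p := Real.mul_self_sqrt hp0.le
  have hs0 : 0 < √(p : ℝ) := Real.sqrt_pos.2 hp0
  unfold Pool.Agent.U62.LD.pairF var
  by_cases hij : i = j
  · subst hij
    have h2 : (0 : ℝ) < √2 := Real.sqrt_pos.2 (by norm_num)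
    rw [if_pos rfl, if_pos rfl, show (1 : ℝ) + 1 = 2 by norm_num]
    by_cases h : IsGood (g i) p (curve c i)
    · rw [if_pos ⟨h, h⟩, (i1 h).1, (i1 h).2]
      unfold b rk
      rw [if_pos rfl]
      field_simp
      rw [Real.sq_sqrt hp0.le]
      ring
    · rw [if_neg (fun h' => h h'.1), (i2 h).1]
      ring
  · rw [if_neg hij, if_neg hij, add_zero, Real.sqrt_one, one_mul]
    by_cases h : IsGood (g i) p (curve c i)
    · by_cases h' : IsGood (g j) p (curve c j)
      · rw [if_pos ⟨h, h'⟩, (i1 h).2, (j1 h').2]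
        unfold b rk
        rw [if_neg hij]
        have e : trace (g i) p (curve c i) / √p * (trace (g j) p (curve c j) / √p) =
            trace (g i) p (curve c i) * trace (g j) p (curve c j) / p := by
          rw [div_mul_div_comm, hs]
        rw [neg_mul_neg, e]
        field_simp
        ring
      · rw [if_neg (fun h'' => h' h''.2), (j2 h').2]
        ring
    · rw [if_neg (fun h'' => h h''.1), (i2 h).2]
      ring

/-- **The joint moderate deviations of the Tauberian averages for products of curves.** Let `g_1, ..., g_N ≥ 2`, `β_ij ≥ 0`,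
`ε > 0` and let `R` be the sum of `β_ij ^ 2 / 2` over `i ≤ j`.

* For all `δ > 0` there is a `K` with the following property. Let `l ≥ K` be an integer, `P` a set of at least `l ^ 3` primes `p ≤ y`,
  `|w_p| ≤ 1`, `p ∈ P`, weights with `∑ w_p ^ 2 ≥ δ |P|`, `σ_ij = ± 1` signs and `H ≥ y ^ (K l)`. Then the proportion of the coefficient
  vectors `c` in the box of the height `H` for which, for all `i ≤ j`, the sum of `w_p (b_p(C_i x C_j) / p - rk i j)` over the primes
  of good reduction in `P`, multiplied by `σ_ij`, is at least `β_ij (var i j l ∑ w_p ^ 2) ^ (1 / 2)` lies between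
  `exp (- (R + ε) l)` and `exp (- (R - ε) l)`.
* There is a `K` such that for all signs, all `T`, `l` and `H` with `l ≥ K`, `l ^ 3 ≤ π(T)` and `H ≥ T ^ (K l)` the same holds for the
  averages `T⁻¹ ∑ log p (b_p(C_i x C_j) / p - rk i j)` over the primes `p ≤ T` of good reduction and the bounds
  `β_ij (var i j l ∑ (log p) ^ 2) ^ (1 / 2) / T`. -/
theorem result (g : Fin N → ℕ) (hg : ∀ i, 2 ≤ g i) (β : Fin N → Fin N → ℝ) (hβ : ∀ i j, 0 ≤ β i j) (ε : ℝ) (hε : 0 < ε) :
    (∀ δ : ℝ, 0 < δ → ∃ K : ℕ, ∀ (P : Finset ℕ) (w : ℕ → ℝ) (σ : Fin N → Fin N → ℝ) (y H l : ℕ), (∀ p ∈ P, p.Prime ∧ p ≤ y) →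
      (∀ p ∈ P, |w p| ≤ 1) → δ * P.card ≤ ∑ p ∈ P, w p ^ 2 → (∀ i j, σ i j = 1 ∨ σ i j = -1) → K ≤ l → l ^ 3 ≤ P.card →
      y ^ (K * l) ≤ H →
      Between l (rate β) ε (proportion H fun c : Coeff g → ℤ => ∀ i j, i ≤ j →
        β i j * √(var i j * (l * ∑ p ∈ P, w p ^ 2)) ≤ σ i j * deviation P w i j c)) ∧
    ∃ K : ℕ, ∀ (σ : Fin N → Fin N → ℝ) (T H l : ℕ), (∀ i j, σ i j = 1 ∨ σ i j = -1) → K ≤ l → l ^ 3 ≤ (primesUpTo T).card →
      T ^ (K * l) ≤ H →
      Between l (rate β) ε (proportion H fun c : Coeff g → ℤ => ∀ i j, i ≤ j →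
        β i j * (√(var i j * (l * ∑ p ∈ primesUpTo T, Real.log p ^ 2)) / T) ≤ σ i j * tateDeviation T i j c) := by
  have hv : ∀ i j : Fin N, 0 < var i j := by
    intro i j
    unfold var
    split_ifs <;> norm_num
  constructor
  · intro δ hδ
    obtain ⟨K, hK⟩ := Pool.Agent.U62.LD.pair_mdp hg β hβ hδ hε
    refine ⟨K, fun P w σ y H l hP hw hws hσ hl hlP hH => ?_⟩
    have h := hK P w σ y H l hP hw hws hσ hl hlP hH
    have e : (fun c : Coeff g → ℤ => ∀ i j, i ≤ j → β i j * √(var i j * (l * ∑ p ∈ P, w p ^ 2)) ≤ σ i j * deviation P w i j c) =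
        fun c => ∀ i j, i ≤ j → β i j * √(l * ∑ p ∈ P, w p ^ 2) ≤
          σ i j * ∑ p ∈ P, w p * Pool.Agent.U62.LD.pairF g i j p (Pool.Agent.Y722.HS.red p c) := by
      funext c
      refine propext (forall_congr' fun i => forall_congr' fun j => imp_congr_right fun _ => ?_)
      rw [deviation_eq P (fun p hp => (hP p hp).1) w i j c, Real.sqrt_mul (hv i j).le, mul_left_comm (β i j), mul_left_comm (σ i j),
        mul_le_mul_iff_right₀ (Real.sqrt_pos.2 (hv i j))]
    rw [e]
    exact h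
  · obtain ⟨K, hK⟩ := Pool.Agent.U62.LD.pair_mdp_log hg β hβ hε
    refine ⟨max K 2, fun σ T H l hσ hl hlT hH => ?_⟩
    have hl2 : 2 ≤ l := (le_max_right _ _).trans hl
    have hT0 : 0 < T := by
      rcases Nat.eq_zero_or_pos T with h0 | h0
      · subst h0
        have h1 : (primesUpTo 0).card = 0 := by decide
        rw [h1] at hlT
        have : 0 < l ^ 3 := by positivity
        omega
      · exact h0
    have hTr : (0 : ℝ) < T := by exact_mod_cast hT0
    have h := hK σ T H l hσ ((le_max_left _ _).trans hl) hlT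
      ((Nat.pow_le_pow_right hT0 (Nat.mul_le_mul_right l (le_max_left _ _))).trans hH)
    have e : (fun c : Coeff g → ℤ => ∀ i j, i ≤ j →
        β i j * (√(var i j * (l * ∑ p ∈ primesUpTo T, Real.log p ^ 2)) / T) ≤ σ i j * tateDeviation T i j c) =
        fun c => ∀ i j, i ≤ j → β i j * √(l * ∑ p ∈ primesUpTo T, Real.log p ^ 2) ≤
          σ i j * ∑ p ∈ primesUpTo T, Real.log p * Pool.Agent.U62.LD.pairF g i j p (Pool.Agent.Y722.HS.red p c) := by
      funext c
      refine propext (forall_congr' fun i => forall_congr' fun j => imp_congr_right fun _ => ?_)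
      unfold tateDeviation
      rw [deviation_eq (primesUpTo T) (fun p hp => (Finset.mem_filter.1 hp).2) (fun p => Real.log p) i j c,
        Real.sqrt_mul (hv i j).le, mul_div_assoc', mul_div_assoc', div_le_div_iff_of_pos_right hTr, mul_left_comm (β i j),
        mul_left_comm (σ i j), mul_le_mul_iff_right₀ (Real.sqrt_pos.2 (hv i j))]
    rw [e]
    exact h

end Pool.Agent.Results.MP_4589ac_nt.ModerateDeviations
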