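import Pool.Agent.U187.TM.Main

/-!
# The Tauberian averages for products with varieties with modular Albanese variety

Let `Y` be an arbitrary smooth projective variety over a number field `K` and `A_Y(T)` the average
`T⁻¹ ∑_{q_v ≤ T} b_v(Y) log(q_v) / q_v` of the question, which should tend to the rank of `NS(Y/K)`.
The rank of `NS(Y × Z)` is the sum of the ranks for `Y` and `Z` and of the rank of
`Hom_K(Alb Y, Alb Z)`, so that the question predicts that
`D(T) = A_{Y × Z}(T) - A_Y(T) - A_Z(T)` tends to the rank of `Hom_K(Alb Y, Alb Z)`.  (For a curve `Z`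
the average `A_Z(T)` tends to `1` by the prime ideal theorem.)  In a family of varieties `Z_i` without
common isogeny factors of the Albanese varieties this rank is zero for almost all `i`.

Here `Z` runs through all varieties over `K` whose Albanese variety is modular: `H¹(Z)` is a sum of
Galois representations of newforms of weight two, restricted to `K`, with arbitrary multiplicities; for
example all modular curves `X_0(N)` and the curves covered by them, of arbitrary genus.

We prove that for a family `Z_i` without common newforms the lower limits `c_i` of `D_i(T)`, over all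
`i` where they are positive, satisfy `∑ c_i² / w_i ≤ [K : ℚ] ρ`, where `w_i = ∑_x m_i(x)²` (for `K = ℚ`
the rank of `End(Alb Z_i)`), and the same is true for the upper limits, where they are negative; here
`ρ` is the square of the first Betti number of `Y` or the upper limit of `A_{Y × Y}(T) - 2 A_Y(T)`,
which by the question for `Y` and `Y × Y` is the rank of `End_K(Alb Y)`.  For `Z_p = X_0(p)`, `p` prime,
`w_p` is the genus, so that `∑ c_p² / p` is finite.  If the `w_i` are bounded, then for every `δ > 0` all
but finitely many `D_i(T)` come arbitrarily late below `δ` and above `-δ`; so the limits of `D_i(T)`,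
if they exist, tend to zero.  Nothing is assumed on the variety `Y`, on the existence of limits or on
analytic continuation.

The starting results of this problem treat twists by Artin representations (`ArtinSpectrum`), families
of quadratic twists and random hypersurfaces.  The proof compares the natural averages with Dirichlet
series (partial summation and the prime ideal theorem) and uses the one-sided orthogonality of the
newforms and Bessel's inequality (`Pool.Agent.Y722.RS`, `Pool.Agent.Y149.LN`,
`Pool.Agent.U187.NS`).  The definitions are in `Pool.Agent.U187.TM.Defs`, `Pool.Agent.U187.NS.Defs`,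
`Pool.Agent.U187.MF.Defs` (`IsNewforms`), `Pool.Agent.W353.SP.NDefs` (`average`, `IsTrace`) and
`Pool.Agent.W353.EF.Defs` (`IsFrobenius`).
-/

set_option autoImplicit false

namespace Pool.Agent.Results.MP_4589ac_nt.ModularAlbanese

open NumberField Filter Topology CongruenceSubgroup
open scoped MatrixGroups
open Pool.Agent.U187.MF (IsNewforms)
open Pool.Agent.U187.NS (VarK IsNewformSum)
open Pool.Agent.U187.TM

/-- **The Tauberian averages and the newforms.**  Let `Y` be a projective variety over the number field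
`K`, let `f_x`, `x ∈ Ω`, be pairwise different newforms of weight two, for example all of them, and let
`ρ` be the square of the first Betti number of `Y`, or a number such that the upper limit of
`A_{Y × Y}(T) - 2 A_Y(T)` is at most `ρ`.
1. There are functions `s_x(ε)`, `x ∈ Ω`, such that for every finite set `J` of newforms, `η > 0` and all
small `ε > 0` the sum of the `s_x(ε)²` over the `x ∈ J` with `s_x(ε) > 0` is at most `[K : ℚ] ρ + η`,
and so is the sum over the `x ∈ J` with `s_x(ε) < 0`.  For every variety `Z` over `K` such that `H¹(Z)`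
is a sum of the newforms `f_x` with multiplicities `m(x)`, the limits for `ε → 0` of
`∑_x m(x) s_x(ε)` lie between the lower and the upper limit of `D(T) = A_{Y × Z}(T) - A_Y(T) - A_Z(T)`
for `T → ∞`.
2. Let `Z_i`, `i ∈ ι`, be such varieties, with multiplicities `m_i`, every newform occurring in at most
`M` of them, let `w_i = ∑_x m_i(x)²` and `D_i` the function `D` for `Z_i`.  If `J` is finite, `c_i ≥ 0`
and the lower limit of `D_i` is at least `c_i` for all `i ∈ J`, or the upper limit of `D_i` is at most
`-c_i` for all `i ∈ J`, then the sum of the `c_i² / w_i` over `J` is at most `M [K : ℚ] ρ`.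
3. For every `w` and `δ > 0` there are at most `2 M [K : ℚ] ρ w / δ²` indices `i` with `w_i ≤ w` such
that the lower limit of `D_i` is at least `δ` or the upper limit of `D_i` is at most `-δ`. -/
theorem result (K : Type) [Field K] [NumberField K] {Ω : Type} (L : Ω → ℕ)
    (f : ∀ x, CuspForm (Gamma0 (L x) : Subgroup (GL (Fin 2) ℝ)) 2) (hf : IsNewforms L f)
    (Y : VarK K) (ρ : ℝ)
    (hρ : ρ = (Y.b₁ : ℝ) ^ 2 ∨ ∃ D, IsDeviation Y Y D ∧ UpperLimitLE D ρ) :
    (∃ s : Ω → ℝ → ℝ,
      (∀ (J : Finset Ω) (η : ℝ), 0 < η → ∀ᶠ ε : ℝ in 𝓝[>] 0,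
        ∑ x ∈ J, (max (s x ε) 0) ^ 2 ≤ Module.finrank ℚ K * ρ + η ∧
        ∑ x ∈ J, (max (-s x ε) 0) ^ 2 ≤ Module.finrank ℚ K * ρ + η) ∧
      ∀ (Z : VarK K) (m : Ω →₀ ℕ), IsNewformSum f Z m → ∀ D, IsDeviation Y Z D → ∀ c : ℝ,
        (LowerLimitGE D c → ∀ η : ℝ, 0 < η → ∀ᶠ ε : ℝ in 𝓝[>] 0,
          c - η ≤ m.sum fun x k => (k : ℝ) * s x ε) ∧
        (UpperLimitLE D c → ∀ η : ℝ, 0 < η → ∀ᶠ ε : ℝ in 𝓝[>] 0,
          (m.sum fun x k => (k : ℝ) * s x ε) ≤ c + η)) ∧
    ∀ (ι : Type) (Z : ι → VarK K) (m : ι → Ω →₀ ℕ) (M : ℕ), (∀ i, IsNewformSum f (Z i) (m i)) →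
      (∀ (x : Ω) (S : Finset ι), (∀ i ∈ S, m i x ≠ 0) → S.card ≤ M) →
      ∀ D : ι → ℕ → ℝ, (∀ i, IsDeviation Y (Z i) (D i)) →
      (∀ (J : Finset ι) (c : ι → ℝ), (∀ i ∈ J, 0 ≤ c i) →
        ((∀ i ∈ J, LowerLimitGE (D i) (c i)) ∨ ∀ i ∈ J, UpperLimitLE (D i) (-c i)) →
        ∑ i ∈ J, c i ^ 2 / ((m i).sum fun _ k => k ^ 2 : ℕ) ≤
          M * (Module.finrank ℚ K * ρ)) ∧
      ∀ (w : ℕ) (δ : ℝ), 0 < δ →
        {i | ((m i).sum fun _ k => k ^ 2) ≤ w ∧
          (LowerLimitGE (D i) δ ∨ UpperLimitLE (D i) (-δ))}.Finite ∧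
        ({i | ((m i).sum fun _ k => k ^ 2) ≤ w ∧
          (LowerLimitGE (D i) δ ∨ UpperLimitLE (D i) (-δ))}.ncard : ℝ) ≤
          2 * (M * (Module.finrank ℚ K * ρ)) * w / δ ^ 2 :=
  ⟨⟨Pool.Agent.U187.NS.sp f Y, fun J _ hη => bessel hf hρ J hη,
    fun _ _ hm _ hD _ => ⟨fun hc _ hη => spec_ge hf hm hD hc hη,
      fun hc _ hη => spec_le hf hm hD hc hη⟩⟩,
    fun _ _ _ _ hm hM _ hD => ⟨fun J c hc h => main_sum hf hρ hm hM hD J c hc h,
      fun w _ hδ => main_count hf hρ hm hM hD w hδ⟩⟩

end Pool.Agent.Results.MP_4589ac_nt.ModularAlbanese
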